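import Pool.Agent.Helper55_DDQ.Hit3

/-!
# DDQ, HIT: Hilbert irreducibility over a number field
-/

set_option autoImplicit false

namespace Pool.Agent.DDQ.H55

open IntermediateField

theorem aevalZ_mem {L σ : Type} [Field L] (T : σ → L) (M : Subfield L) (h : ∀ i, T i ∈ M)
    (a : MvPolynomial σ ℤ) : MvPolynomial.aeval T a ∈ M := by
  induction a using MvPolynomial.induction_on with
  | C n =>
    rw [MvPolynomial.aeval_C, algebraMap_int_eq, eq_intCast]
    exact intCast_mem M n
  | add p q hp hq => rw [map_add]; exact M.add_mem hp hq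
  | mul_X p i hp => rw [map_mul, MvPolynomial.aeval_X]; exact M.mul_mem hp (h i)

theorem hit : HitStmt := by
  intro k L _ _ _ _ r s T w hT hgen hfin G hG
  classical
  have hchL : CharZero L := charZero_of_injective_algebraMap (algebraMap k L).injective
  let A := MvPolynomial (Fin s) ℤ
  let E := FractionRing A
  have hchE : CharZero E := charZero_of_injective_algebraMap (IsFractionRing.injective A E)
  have hTZ : AlgebraicIndependent ℤ T := hT.restrictScalars (algebraMap ℤ k).injective_int
  let j : A →+* L := (MvPolynomial.aeval T : MvPolynomial (Fin s) ℤ →ₐ[ℤ] L).toRingHom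
  have hj : Function.Injective j := hTZ
  let algEL : Algebra E L := (IsFractionRing.lift hj).toAlgebra
  have hEL : ∀ a : A, algebraMap E L (algebraMap A E a) = j a := fun a =>
    IsFractionRing.lift_algebraMap hj a
  obtain ⟨κ, hκ⟩ := Field.exists_primitive_element ℚ k
  let κ' : L := algebraMap k L κ
  let L0 : IntermediateField E L := adjoin E {κ'}
  let KT : IntermediateField k L := adjoin k (Set.range T)
  have hκ0 : κ' ∈ L0 := mem_adjoin_simple_self E κ'
  have hk0 : ∀ c : k, algebraMap k L c ∈ L0.toSubfield :=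
    map_mem_of_primitive (algebraMap k L) κ hκ L0.toSubfield hκ0
  have hT0 : ∀ i, T i ∈ L0 := by
    intro i
    have h1 : algebraMap E L (algebraMap A E (MvPolynomial.X i)) = T i := by
      rw [hEL]; exact MvPolynomial.aeval_X _ _
    rw [← h1]
    exact L0.algebraMap_mem _
  have hEKT : ∀ z : E, algebraMap E L z ∈ KT := by
    intro z
    obtain ⟨a, b, hb, rfl⟩ := IsFractionRing.div_surjective (A := A) (K := E) z
    have h1 : ∀ a : A, j a ∈ KT := fun a =>
      aevalZ_mem T KT.toSubfield (fun i => subset_adjoin k _ ⟨i, rfl⟩) a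
    rw [map_div₀, hEL, hEL]
    exact KT.div_mem (h1 a) (h1 b)
  have hLK : ∀ x, x ∈ L0 ↔ x ∈ KT := by
    intro x
    constructor
    · intro hx
      refine adjoin_mem_subfield {κ'} KT.toSubfield hEKT ?_ x hx
      intro y hy
      rw [Set.mem_singleton_iff.1 hy]
      exact KT.algebraMap_mem κ
    · intro hx
      refine adjoin_mem_subfield (Set.range T) L0.toSubfield hk0 ?_ x hx
      rintro _ ⟨i, rfl⟩
      exact hT0 i
  obtain ⟨hfr, hff⟩ := finrank_congr KT L0 fun x => (hLK x).symm
  have hfinL0 : FiniteDimensional L0 L := hff hfin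
  have hκalg : IsAlgebraic ℤ κ' := by
    have h1 : IsAlgebraic ℚ κ := Algebra.IsAlgebraic.isAlgebraic κ
    have h2 : IsAlgebraic ℤ κ := (IsFractionRing.isAlgebraic_iff ℤ ℚ k).2 h1
    exact h2.algHom (algebraMap k L).toIntAlgHom
  have hκE : IsIntegral E κ' := by
    obtain ⟨p, hp0, hp⟩ := hκalg
    refine IsAlgebraic.isIntegral ⟨p.map (Int.castRingHom E),
      (Polynomial.map_ne_zero_iff (Int.castRingHom E).injective_int).2 hp0, ?_⟩
    rw [Polynomial.aeval_def, Polynomial.eval₂_map, ← hp, Polynomial.aeval_def]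
    congr 1
    exact RingHom.ext_int _ _
  have hfin0 : FiniteDimensional E L0 := IntermediateField.adjoin.finiteDimensional hκE
  have hfinE : FiniteDimensional E L := FiniteDimensional.trans E L0 L
  -- the normal closure
  let Ω := normalClosure E L (AlgebraicClosure L)
  have hfinΩ : FiniteDimensional E Ω := inferInstance
  have hgal : IsGalois E Ω := inferInstance
  let ι : L →ₐ[E] Ω := IsScalarTower.toAlgHom E L Ω
  let v0 : Option (Fin r) → L := fun o => o.elim κ' w
  let g : L := MvPolynomial.aeval w G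
  let S0 : Finset Ω := Finset.univ.image fun o => ι (v0 o)
  let D : Finset Ω := (Finset.univ ×ˢ S0).image fun q : (Ω ≃ₐ[E] Ω) × Ω => q.1 q.2 - q.2
  let S : Finset Ω := S0 ∪ (D ∪ (D.image (fun z => z⁻¹) ∪ {ι g, (ι g)⁻¹}))
  obtain ⟨L', j1, j2, j3, j4, e, R, ψ, hSR, hRalg, hst, he⟩ := hitR s E Ω S
  have hv : ∀ o, ι (v0 o) ∈ R := fun o => hSR _ (Finset.mem_union_left _
    (Finset.mem_image_of_mem _ (Finset.mem_univ o)))
  have hψne : ∀ (x : R), (x : Ω)⁻¹ ∈ R → x ≠ 0 → ψ x ≠ 0 := by
    intro x hx hx0 h0
    have hx0' : (x : Ω) ≠ 0 := fun h => hx0 (Subtype.ext h)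
    have h1 : x * ⟨(x : Ω)⁻¹, hx⟩ = 1 := Subtype.ext (mul_inv_cancel₀ hx0')
    have h2 := congrArg ψ h1
    rw [map_mul, h0, zero_mul, map_one] at h2
    exact zero_ne_one h2
  let v : Option (Fin r) → R := fun o => ⟨ι (v0 o), hv o⟩
  have hsep : ∀ (σ : Ω ≃ₐ[E] Ω) (i : Option (Fin r)), σ (v i) ≠ (v i : Ω) →
      ∀ y : R, (y : Ω) = σ (v i) → ψ y ≠ ψ (v i) := by
    intro σ i hne y hy heq
    have hd : σ (v i) - (v i : Ω) ∈ D := Finset.mem_image.2
      ⟨(σ, (v i : Ω)), Finset.mem_product.2 ⟨Finset.mem_univ _,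
        Finset.mem_image_of_mem _ (Finset.mem_univ i)⟩, rfl⟩
    have hdi : (σ (v i) - (v i : Ω))⁻¹ ∈ R := hSR _ (Finset.mem_union_right _
      (Finset.mem_union_right _ (Finset.mem_union_left _ (Finset.mem_image_of_mem _ hd))))
    have h1 : ((y - v i : R) : Ω) = σ (v i) - (v i : Ω) := by
      rw [← hy]
      rfl
    refine hψne (y - v i) (by rw [h1]; exact hdi) ?_ (by rw [map_sub, heq, sub_self])
    intro h0
    apply hne
    rw [h0] at h1
    exact (sub_eq_zero.1 h1.symm)
  have hd1 := finrank_adjoin_eq e R ψ he hst v hsep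
  have hd2 := finrank_adjoin_eq e R ψ he hst (fun _ : Unit => v none)
    (fun σ _ h => hsep σ none h)
  -- the constants
  let gk : k →+* Ω := (ι : L →+* Ω).comp (algebraMap k L)
  have hgk : ∀ c, gk c ∈ R := by
    intro c
    apply hRalg
    have h1 : IsAlgebraic ℚ c := Algebra.IsAlgebraic.isAlgebraic c
    have h2 : IsAlgebraic ℤ c := (IsFractionRing.isAlgebraic_iff ℤ ℚ k).2 h1
    exact h2.algHom gk.toIntAlgHom
  let kR : k →+* R := gk.codRestrict R hgk
  let rr : k →+* L' := ψ.comp kR
  let algkR : Algebra k R := kR.toAlgebra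
  let algkL' : Algebra k L' := rr.toAlgebra
  let ψa : R →ₐ[k] L' := { ψ with commutes' := fun c => rfl }
  have htw : IsScalarTower ℚ k L' := IsScalarTower.of_algebraMap_eq' (RingHom.ext_rat _ _)
  let u : Fin r → L' := fun i => ψ (v (some i))
  let W : IntermediateField k L' := adjoin k (Set.range u)
  -- the field generated over the rationals
  have hκv : ψ (v none) = rr κ := rfl
  have hW : W.restrictScalars ℚ = adjoin ℚ (Set.range fun o => ψ (v o)) := by
    apply le_antisymm
    · intro x hx
      refine adjoin_mem_subfield (Set.range u)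
        (adjoin ℚ (Set.range fun o => ψ (v o))).toSubfield ?_ ?_ x hx
      · refine map_mem_of_primitive rr κ hκ _ ?_
        exact subset_adjoin ℚ _ ⟨none, rfl⟩
      · rintro _ ⟨i, rfl⟩
        exact subset_adjoin ℚ _ ⟨some i, rfl⟩
    · rw [adjoin_le_iff]
      rintro _ ⟨o, rfl⟩
      cases o with
      | none => exact W.algebraMap_mem κ
      | some i => exact subset_adjoin k _ ⟨i, rfl⟩
  have hfinW : Module.finrank ℚ k * Module.finrank k W =
      Module.finrank ℚ (adjoin ℚ (Set.range fun o => ψ (v o))) := by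
    rw [← hW, Module.finrank_mul_finrank ℚ k W]
    rfl
  have hfink : Module.finrank ℚ k =
      Module.finrank ℚ (adjoin ℚ (Set.range fun _ : Unit => ψ (v none))) := by
    rw [Set.range_const, hκv, IntermediateField.adjoin.finrank
      (Algebra.IsIntegral.isIntegral (rr κ)),
      ← (Field.primitive_element_iff_minpoly_natDegree_eq ℚ κ).1 hκ]
    congr 1
    exact (minpoly.algHom_eq rr.toRatAlgHom rr.injective κ).symm
  -- the field generated over `E`
  have htop : adjoin E (Set.range v0) = ⊤ := by
    rw [eq_top_iff]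
    intro x _
    have h0 : L0 ≤ adjoin E (Set.range v0) := by
      refine adjoin_le_iff.2 ?_
      intro y hy
      rw [Set.mem_singleton_iff.1 hy]
      exact subset_adjoin E _ ⟨none, rfl⟩
    have hx : x ∈ adjoin k (Set.range T ∪ Set.range w) := by rw [hgen]; exact mem_top
    refine adjoin_mem_subfield _ (adjoin E (Set.range v0)).toSubfield ?_ ?_ x hx
    · intro c
      exact h0 (hk0 c)
    · rintro y (⟨i, rfl⟩ | ⟨i, rfl⟩)
      · exact h0 (hT0 i)
      · exact subset_adjoin E _ ⟨some i, rfl⟩
  have hE1 : Module.finrank E (adjoin E (Set.range fun o => (v o : Ω))) = Module.finrank E L := by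
    have h1 : adjoin E (Set.range fun o => (v o : Ω)) = (⊤ : IntermediateField E L).map ι := by
      rw [← htop, adjoin_map, ← Set.range_comp]
      rfl
    rw [h1, ← LinearEquiv.finrank_eq (equivMap ⊤ ι).toLinearEquiv]
    exact IntermediateField.finrank_top'
  have hE2 : Module.finrank E (adjoin E (Set.range fun _ : Unit => (v none : Ω))) =
      Module.finrank E L0 := by
    have h1 : adjoin E (Set.range fun _ : Unit => (v none : Ω)) = L0.map ι := by
      rw [adjoin_map, Set.image_singleton, Set.range_const]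
      rfl
    rw [h1, ← LinearEquiv.finrank_eq (equivMap L0 ι).toLinearEquiv]
  have hmul := Module.finrank_mul_finrank E L0 L
  rw [hE1] at hd1
  rw [hE2] at hd2
  rw [← hfinW, ← hmul, hfink, hd2] at hd1
  have hpos : 0 < Module.finrank E L0 := Module.finrank_pos
  have hWL : Module.finrank k W = Module.finrank L0 L := Nat.eq_of_mul_eq_mul_left hpos hd1
  -- to the algebraic closure of `k`
  have halgk : Algebra.IsAlgebraic k L' := by
    have h1 : Algebra.IsAlgebraic ℚ L' := inferInstance
    exact Algebra.IsAlgebraic.tower_top (K := ℚ) k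
  let i : L' →ₐ[k] AlgebraicClosure k := IsAlgClosed.lift
  let wR : Fin r → R := fun m => v (some m)
  have hval : ∀ P : MvPolynomial (Fin r) k, ((MvPolynomial.aeval wR P : R) : Ω) =
      ι (MvPolynomial.aeval w P) := by
    intro P
    have h1 : ((MvPolynomial.aeval wR P : R) : Ω) =
        (R.subtype.comp (MvPolynomial.aeval wR : MvPolynomial (Fin r) k →ₐ[k] R).toRingHom) P := rfl
    have h2 : ι (MvPolynomial.aeval w P) =
        ((ι : L →+* Ω).comp (MvPolynomial.aeval w : MvPolynomial (Fin r) k →ₐ[k] L).toRingHom) P :=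
      rfl
    rw [h1, h2]
    congr 1
    refine MvPolynomial.ringHom_ext (fun c => ?_) (fun m => ?_)
    · simp
      rfl
    · simp [MvPolynomial.aeval_X]
      rfl
  have hy : ∀ P : MvPolynomial (Fin r) k, MvPolynomial.aeval (fun m => i (u m)) P =
      i (ψ (MvPolynomial.aeval wR P)) := by
    intro P
    have h1 : i (ψ (MvPolynomial.aeval wR P)) = (i.comp ψa) (MvPolynomial.aeval wR P) := rfl
    rw [h1, MvPolynomial.comp_aeval_apply]
    rfl
  refine ⟨fun m => i (u m), fun P hP => ?_, ?_, ?_⟩
  · rw [hy]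
    have h1 : MvPolynomial.aeval wR P = (0 : R) := by
      apply Subtype.ext
      rw [hval, hP, map_zero]
      rfl
    rw [h1, map_zero, map_zero]
  · rw [hy]
    have hgi : (ι g)⁻¹ ∈ R := hSR _ (by simp [S])
    have h1 : ψ (MvPolynomial.aeval wR G) ≠ 0 := by
      refine hψne _ ?_ ?_
      · rw [hval]; exact hgi
      · intro h0
        have h2 := hval G
        rw [h0] at h2
        apply hG
        have h3 : ι (MvPolynomial.aeval w G) = 0 := h2.symm
        exact (map_eq_zero_iff ι ι.injective).1 h3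
    exact fun h0 => h1 ((map_eq_zero_iff i i.injective).1 h0)
  · have h1 : adjoin k (Set.range fun m => i (u m)) = W.map i := by
      rw [adjoin_map, ← Set.range_comp]
      rfl
    rw [h1, ← LinearEquiv.finrank_eq (equivMap W i).toLinearEquiv, hWL]
    exact hfr.symm

end Pool.Agent.DDQ.H55
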