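import Pool.Agent.Helper55_DDQ.Hit1

/-!
# DDQ, HIT part 2: the specialisation on a local ring
-/

set_option autoImplicit false

open Polynomial

namespace Pool.Agent.DDQ.H55

open Pool.Agent.Common_HIT

/-- The elements with a denominator which survives the specialisation. -/
theorem exists_local {A Ω L' : Type} [CommRing A] [IsDomain A] [Field Ω] [Algebra A Ω]
    [FaithfulSMul A Ω] [Field L'] [CharZero L'] (φ : integralClosure A Ω →+* L') (ev : A →+* ℤ)
    (hφ : ∀ a : A, φ (algebraMap A (integralClosure A Ω) a) = ((ev a : ℤ) : L')) :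
    ∃ (R : Subring Ω) (ψ : R →+* L'),
      (∀ x : Ω, (∃ a : A, ev a ≠ 0 ∧ IsIntegral A (algebraMap A Ω a * x)) ↔ x ∈ R) ∧
      ∀ (x : R) (a : A) (b : integralClosure A Ω), (b : Ω) = algebraMap A Ω a * x →
        φ b = ((ev a : ℤ) : L') * ψ x := by
  classical
  let B := integralClosure A Ω
  let S0 : Submonoid B := Submonoid.map (algebraMap A B) (nonZeroDivisors ℤ |>.comap ev)
  have hS0 : ∀ s : S0, ∃ a : A, ev a ≠ 0 ∧ (s : B) = algebraMap A B a := by
    rintro ⟨s, a, ha, rfl⟩
    exact ⟨a, nonZeroDivisors.ne_zero ha, rfl⟩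
  have hmem : ∀ a : A, ev a ≠ 0 → algebraMap A B a ∈ S0 := fun a ha =>
    ⟨a, mem_nonZeroDivisors_of_ne_zero ha, rfl⟩
  have hinjA : Function.Injective (algebraMap A Ω) := FaithfulSMul.algebraMap_injective A Ω
  have hfu : ∀ s : S0, IsUnit ((algebraMap B Ω) s) := by
    intro s
    obtain ⟨a, ha, hs⟩ := hS0 s
    rw [hs, isUnit_iff_ne_zero]
    intro h0
    apply ha
    have h1 : algebraMap A Ω a = 0 := h0
    rw [(map_eq_zero_iff _ hinjA).1 h1, map_zero]
  have hgu : ∀ s : S0, IsUnit (φ s) := by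
    intro s
    obtain ⟨a, ha, hs⟩ := hS0 s
    rw [hs, hφ, isUnit_iff_ne_zero]
    exact_mod_cast ha
  let BS := Localization S0
  let f : BS →+* Ω := IsLocalization.lift (M := S0) (g := algebraMap B Ω) hfu
  let g : BS →+* L' := IsLocalization.lift (M := S0) (g := φ) hgu
  have hf : Function.Injective f := by
    rw [injective_iff_map_eq_zero]
    intro z hz
    obtain ⟨b, s, rfl⟩ := IsLocalization.exists_mk'_eq S0 z
    rw [IsLocalization.lift_mk'] at hz
    have h2 : (algebraMap B Ω) b = 0 := by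
      rcases mul_eq_zero.1 hz with h | h
      · exact h
      · exact absurd h (Units.ne_zero _)
    have h3 : b = 0 := by
      apply Subtype.ext
      exact h2
    rw [h3, IsLocalization.mk'_zero]
  let e0 : BS ≃+* f.range := RingEquiv.ofBijective f.rangeRestrict
    ⟨fun a b h => hf (congrArg Subtype.val h), f.rangeRestrict_surjective⟩
  have he0 : ∀ z : BS, ((e0 z : f.range) : Ω) = f z := fun z => rfl
  have hev : ∀ (x : f.range), f (e0.symm x) = x := by
    intro x
    rw [← he0, e0.apply_symm_apply]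
  refine ⟨f.range, g.comp (e0.symm : f.range →+* BS), ?_, ?_⟩
  · intro x
    constructor
    · rintro ⟨a, ha, hb⟩
      refine ⟨IsLocalization.mk' BS (⟨_, hb⟩ : B) (⟨algebraMap A B a, hmem a ha⟩ : S0), ?_⟩
      change IsLocalization.lift (M := S0) (g := algebraMap B Ω) hfu _ = x
      rw [IsLocalization.lift_mk'_spec]
      change algebraMap A Ω a * x = algebraMap A Ω a * x
      rfl
    · rintro ⟨z, rfl⟩
      obtain ⟨b, s, rfl⟩ := IsLocalization.exists_mk'_eq S0 z
      obtain ⟨a, ha, hs⟩ := hS0 s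
      refine ⟨a, ha, ?_⟩
      have h1 : algebraMap A Ω a * f (IsLocalization.mk' BS b s) = algebraMap B Ω b := by
        have h2 := (IsLocalization.lift_mk'_spec (g := algebraMap B Ω) (S := BS) hfu b
          (f (IsLocalization.mk' BS b s)) s).1 rfl
        rw [h2, hs]
        rfl
      rw [h1]
      exact b.2
  · intro x a b hb
    obtain ⟨c, s, hz⟩ := IsLocalization.exists_mk'_eq S0 (e0.symm x)
    have hx : (x : Ω) = f (IsLocalization.mk' BS c s) := by rw [hz, hev]
    have h2 := (IsLocalization.lift_mk'_spec (g := algebraMap B Ω) (S := BS) hfu c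
          (f (IsLocalization.mk' BS c s)) s).1 rfl
    have h3 := (IsLocalization.lift_mk'_spec (g := φ) (S := BS) hgu c
          (g (IsLocalization.mk' BS c s)) s).1 rfl
    change φ b = _ * g (e0.symm x)
    rw [← hz]
    have h4 : (s : B) * b = algebraMap A B a * c := by
      apply Subtype.ext
      change ((s : B) : Ω) * (b : Ω) = algebraMap A Ω a * (c : Ω)
      have h5 : (c : Ω) = ((s : B) : Ω) * x := by rw [hx]; exact h2
      rw [hb, h5]
      ring
    have h6 : φ (s : B) * φ b = φ (s : B) * (((ev a : ℤ) : L') * g (IsLocalization.mk' BS c s)) := by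
      rw [← map_mul, h4, map_mul, hφ, h3]
      ring
    exact mul_left_cancel₀ (hgu s).ne_zero h6

/-- **Specialisation** of a Galois extension of `Frac ℤ[T]`: a Galois extension `L'` of `ℚ` with the
same group, and an equivariant homomorphism to it of a ring which contains a given finite set. -/
theorem hitR (s : ℕ) (E Ω : Type) [Field E] [Field Ω] [Algebra (MvPolynomial (Fin s) ℤ) E]
    [IsFractionRing (MvPolynomial (Fin s) ℤ) E] [Algebra E Ω] [FiniteDimensional E Ω]
    [IsGalois E Ω] (S : Finset Ω) :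
    ∃ (L' : Type) (_ : Field L') (_ : CharZero L') (_ : FiniteDimensional ℚ L')
      (_ : IsGalois ℚ L') (e : (Ω ≃ₐ[E] Ω) ≃* (L' ≃ₐ[ℚ] L')) (R : Subring Ω) (ψ : R →+* L'),
      (∀ x ∈ S, x ∈ R) ∧ (∀ x : Ω, IsAlgebraic ℤ x → x ∈ R) ∧
      (∀ (σ : Ω ≃ₐ[E] Ω) (x : R), σ x ∈ R) ∧
      ∀ (σ : Ω ≃ₐ[E] Ω) (x y : R), (y : Ω) = σ x → e σ (ψ x) = ψ y := by
  classical
  let A := MvPolynomial (Fin s) ℤ
  let alg : Algebra A Ω := ((algebraMap E Ω).comp (algebraMap A E)).toAlgebra
  have tower : IsScalarTower A E Ω := IsScalarTower.of_algebraMap_eq fun _ => rfl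
  have hfs : FaithfulSMul A Ω := by
    rw [faithfulSMul_iff_algebraMap_injective]
    exact (algebraMap E Ω).injective.comp (IsFractionRing.injective A E)
  have hinjA : Function.Injective (algebraMap A Ω) := FaithfulSMul.algebraMap_injective A Ω
  have hden : ∀ x : Ω, ∃ a : A, a ≠ 0 ∧ IsIntegral A (algebraMap A Ω a * x) := by
    intro x
    have halg : IsAlgebraic A x :=
      (IsFractionRing.isAlgebraic_iff A E Ω).2 (Algebra.IsAlgebraic.isAlgebraic x)
    obtain ⟨y, hy, hyx⟩ := halg.exists_integral_multiple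
    refine ⟨y, hy, ?_⟩
    rwa [← Algebra.smul_def]
  choose den hden0 hdeni using hden
  obtain ⟨L', j1, j2, j3, j4, e, φ, ev, hev0, hφ, he⟩ := hilbZ_phi2 (A := A) (hilbZ_mvPolynomial s)
    E Ω (∏ x ∈ S, den x) (Finset.prod_ne_zero_iff.2 fun x _ => hden0 x)
  obtain ⟨R, ψ, hR, hψ⟩ := exists_local φ ev hφ
  have hstab : ∀ (σ : Ω ≃ₐ[E] Ω) (a : A) (x : Ω), algebraMap A Ω a * σ x =
      σ (algebraMap A Ω a * x) := by
    intro σ a x
    rw [map_mul]
    congr 1
    exact (σ.commutes (algebraMap A E a)).symm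
  have hint : ∀ (σ : Ω ≃ₐ[E] Ω) (x : Ω), IsIntegral A x → IsIntegral A (σ x) := by
    intro σ x hx
    exact hx.map ((σ : Ω →ₐ[E] Ω).restrictScalars A)
  refine ⟨L', j1, j2, j3, j4, e, R, ψ, ?_, ?_, ?_, ?_⟩
  · intro x hx
    refine (hR x).1 ⟨den x, ?_, hdeni x⟩
    rw [map_prod, Finset.prod_ne_zero_iff] at hev0
    exact hev0 x hx
  · intro x hx
    obtain ⟨y, hy, hyx⟩ := hx.exists_integral_multiple
    refine (hR x).1 ⟨(y : A), ?_, ?_⟩
    · rw [map_intCast]
      exact_mod_cast hy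
    · have h1 : algebraMap A Ω (y : A) = (y : Ω) := map_intCast _ y
      rw [h1]
      have h2 : (y : Ω) * x = y • x := by rw [zsmul_eq_mul]
      rw [h2]
      exact hyx.tower_top
  · intro σ x
    obtain ⟨a, ha, hi⟩ := (hR x).2 x.2
    refine (hR _).1 ⟨a, ha, ?_⟩
    rw [hstab]
    exact hint σ _ hi
  · intro σ x y hxy
    obtain ⟨a, ha, hi⟩ := (hR x).2 x.2
    have h1 := hψ x a ⟨_, hi⟩ rfl
    have hi2 : IsIntegral A (algebraMap A Ω a * y) := by
      rw [hxy, hstab]; exact hint σ _ hi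
    have h2 := hψ y a ⟨_, hi2⟩ rfl
    have h3 := he σ ⟨_, hi⟩ ⟨_, hi2⟩ (by
      change algebraMap A Ω a * (y : Ω) = σ (algebraMap A Ω a * (x : Ω))
      rw [hxy, hstab])
    rw [h1, h2, map_mul, map_intCast] at h3
    have h4 : (((ev a : ℤ)) : L') ≠ 0 := by exact_mod_cast ha
    exact mul_left_cancel₀ h4 h3

end Pool.Agent.DDQ.H55
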