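import Mathlib

/-!
# DDQ: points of fixed degree on quartic surfaces. Definitions and statements of the modules.
-/

set_option autoImplicit false

namespace Pool.Agent.DDQ

open MvPolynomial IntermediateField

/-- The points of degree `m` of the surface `F = 0` over `k` are dense: no `G` which is not a
multiple of `F` vanishes on all of them. -/
def DenseDeg {k : Type} [Field k] (F : MvPolynomial (Fin 3) k) (m : ℕ) : Prop :=
  ∀ G : MvPolynomial (Fin 3) k, ¬ F ∣ G → ∃ y : Fin 3 → AlgebraicClosure k,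
    aeval y F = 0 ∧ aeval y G ≠ 0 ∧ Module.finrank k (adjoin k (Set.range y)) = m

/-- The polynomial `P(x + e V)` in the new variables `V`. -/
noncomputable def shift {k K : Type} [Field k] [Field K] [Algebra k K] (x : Fin 3 → K)
    (e : Matrix (Fin 3) (Fin 3) K) (P : MvPolynomial (Fin 3) k) : MvPolynomial (Fin 3) K :=
  aeval (fun i => C (x i) + ∑ j, C (e i j) * X j) P

/-- HIT: Hilbert irreducibility over a number field. -/
def HitStmt : Prop := ∀ (k L : Type) [Field k] [NumberField k] [Field L] [Algebra k L] (r s : ℕ)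
  (T : Fin s → L) (w : Fin r → L), AlgebraicIndependent k T →
  adjoin k (Set.range T ∪ Set.range w) = ⊤ → FiniteDimensional (adjoin k (Set.range T)) L →
  ∀ G : MvPolynomial (Fin r) k, aeval w G ≠ 0 → ∃ y : Fin r → AlgebraicClosure k,
    (∀ P : MvPolynomial (Fin r) k, aeval w P = 0 → aeval y P = 0) ∧ aeval y G ≠ 0 ∧
    Module.finrank k (adjoin k (Set.range y)) = Module.finrank (adjoin k (Set.range T)) L

/-- TRL: the transfer lemma. `K/k` is finite, `w` generates `L` over `K`, and `T` is a transcendence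
basis over `K` with `[L : K(T)] = n`. -/
def TrlStmt : Prop := ∀ (k K L : Type) [Field k] [NumberField k] [Field K] [Field L] [Algebra k K]
  [Algebra K L] [Algebra k L] [IsScalarTower k K L] [FiniteDimensional k K] (r s : ℕ)
  (T : Fin s → L) (w : Fin r → L) (n : ℕ), 0 < s → 0 < n → AlgebraicIndependent K T →
  adjoin K (Set.range w) = ⊤ → Module.finrank (adjoin K (Set.range T)) L = n →
  ∀ G : MvPolynomial (Fin r) k, aeval w G ≠ 0 → ∃ y : Fin r → AlgebraicClosure k,
    (∀ P : MvPolynomial (Fin r) k, aeval w P = 0 → aeval y P = 0) ∧ aeval y G ≠ 0 ∧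
    Module.finrank k (adjoin k (Set.range y)) = n * Module.finrank k K

/-- SWP: the swap lemma. `H` is a primitive polynomial in `Y` over `E[X]` with `H(α, β) = 0`, of
degree `[L : E(α)]` in `Y` and of degree `n` in `X`; then `[L : E(β)] = n`. -/
def SwpStmt : Prop := ∀ (E L : Type) [Field E] [Field L] [Algebra E L] (α β : L)
  (H : Polynomial (Polynomial E)) (n : ℕ), Transcendental E α → adjoin E {α, β} = ⊤ →
  H.IsPrimitive → H.eval₂ (Polynomial.aeval α : Polynomial E →ₐ[E] L).toRingHom β = 0 →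
  H.natDegree = Module.finrank (adjoin E {α}) L → 0 < H.natDegree →
  (∀ i, (H.coeff i).natDegree ≤ n) → (∃ i, (H.coeff i).coeff n ≠ 0) → 0 < n →
  Transcendental E β ∧ Module.finrank (adjoin E {β}) L = n

/-- CVF: functions of every degree `n ≥ 3` on the plane quartic curve, pointed at a point which is
not a flex. -/
def CvfStmt : Prop := ∀ (E L : Type) [Field E] [CharZero E] [Field L] [Algebra E L] (M Z : L)
  (q₂ q₃ q₄ : Polynomial E), Transcendental E M → adjoin E {M, Z} = ⊤ →
  Module.finrank (adjoin E {M}) L = 3 → q₂.natDegree ≤ 2 → q₃.natDegree ≤ 3 → q₄.natDegree ≤ 4 →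
  q₂.coeff 2 ≠ 0 → Z ^ 3 + Polynomial.aeval M q₂ * Z ^ 2 + Polynomial.aeval M q₃ * Z +
    Polynomial.aeval M q₄ = 0 →
  ∀ n, 3 ≤ n → ∃ t : L, Transcendental E t ∧ Module.finrank (adjoin E {t}) L = n

/-- CVT: the same for plane cubic curves, `n ≥ 2`. -/
def CvtStmt : Prop := ∀ (E L : Type) [Field E] [CharZero E] [Field L] [Algebra E L] (M Z : L)
  (q₂ q₃ : Polynomial E), Transcendental E M → adjoin E {M, Z} = ⊤ →
  Module.finrank (adjoin E {M}) L = 2 → q₂.natDegree ≤ 2 → q₃.natDegree ≤ 3 →
  (q₂.coeff 2 ≠ 0 ∨ q₃.coeff 3 ≠ 0) →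
  Z ^ 2 + Polynomial.aeval M q₂ * Z + Polynomial.aeval M q₃ = 0 →
  ∀ n, 2 ≤ n → ∃ t : L, Transcendental E t ∧ Module.finrank (adjoin E {t}) L = n

/-- PRJ: projection from the smooth point `0` of a hypersurface of degree `D` with tangent plane
`X 1 = 0`. -/
def PrjStmt : Prop := ∀ (K L : Type) [Field K] [Field L] [Algebra K L] (D : ℕ)
  (F : MvPolynomial (Fin 3) K) (A : Fin 3 → L), 2 ≤ D → F.totalDegree = D →
  homogeneousComponent 0 F = 0 → homogeneousComponent 1 F = X 1 →
  (∀ P : MvPolynomial (Fin 3) K, aeval A P = 0 ↔ F ∣ P) → adjoin K (Set.range A) = ⊤ →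
  A 0 ≠ 0 ∧ A 1 ≠ 0 ∧ AlgebraicIndependent K ![A 2 / A 0, A 0 / A 1] ∧
    Module.finrank (adjoin K {A 2 / A 0, A 0 / A 1}) L = D - 1

/-- ASM: from PRJ, CVF, CVT: for degree `D ≤ 4` there are rational maps of degree `n` to the plane
for every `n ≥ D - 1`. -/
def AsmStmt : Prop := ∀ (K L : Type) [Field K] [CharZero K] [Field L] [Algebra K L] (D : ℕ)
  (F : MvPolynomial (Fin 3) K) (A : Fin 3 → L), 2 ≤ D → D ≤ 4 → F.totalDegree = D →
  homogeneousComponent 0 F = 0 → homogeneousComponent 1 F = X 1 →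
  aeval (![1, 0, Polynomial.X] : Fin 3 → Polynomial K) (homogeneousComponent 2 F) ≠ 0 →
  (∀ P : MvPolynomial (Fin 3) K, aeval A P = 0 ↔ F ∣ P) → adjoin K (Set.range A) = ⊤ →
  ∀ n, D ≤ n + 1 → 0 < n → ∃ T : Fin 2 → L, AlgebraicIndependent K T ∧
    Module.finrank (adjoin K (Set.range T)) L = n

/-- TAN: the tangent plane section. `Φ` is a polynomial in two variables of degree at most four
with lowest form of degree two; it vanishes on a curve through the origin which has a function of
degree two. -/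
def TanStmt : Prop := ∀ (K : Type) [Field K] (Φ : MvPolynomial (Fin 2) K),
  homogeneousComponent 0 Φ = 0 → homogeneousComponent 1 Φ = 0 → homogeneousComponent 2 Φ ≠ 0 →
  Φ.totalDegree ≤ 4 →
  ∃ (L : Type) (_ : Field L) (_ : Algebra K L) (A : Fin 2 → L) (t : L), aeval A Φ = 0 ∧
    adjoin K (Set.range A) = ⊤ ∧
    (∀ P : MvPolynomial (Fin 2) K, aeval A P = 0 → constantCoeff P = 0) ∧
    Transcendental K t ∧ Module.finrank (adjoin K {t}) L = 2

/-- The second fundamental form of `F = 0` on the tangent fields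
`v_(i,j) = (∂_j F) e_i - (∂_i F) e_j`. -/
noncomputable def hess {k : Type} [Field k] (F : MvPolynomial (Fin 3) k) (i j l m : Fin 3) :
    MvPolynomial (Fin 3) k :=
  pderiv j F * (pderiv m F * pderiv i (pderiv l F) - pderiv l F * pderiv i (pderiv m F)) -
  pderiv i F * (pderiv m F * pderiv j (pderiv l F) - pderiv l F * pderiv j (pderiv m F))

/-- FLT: a surface on which the second fundamental form vanishes is a plane. -/
def FltStmt : Prop := ∀ (k : Type) [Field k] [CharZero k] [IsAlgClosed k]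
  (F : MvPolynomial (Fin 3) k), Irreducible F → 2 ≤ F.totalDegree →
  ∃ i j l m, ¬ F ∣ hess F i j l m

/-- GEO: a smooth, non flat point of degree `m` outside `G = 0`, and coordinates at this point. -/
def GeoStmt : Prop := ∀ (k : Type) [Field k] [CharZero k] (F G : MvPolynomial (Fin 3) k) (m : ℕ),
  Irreducible (map (algebraMap k (AlgebraicClosure k)) F) → 2 ≤ F.totalDegree → DenseDeg F m →
  ¬ F ∣ G →
  ∃ (K : IntermediateField k (AlgebraicClosure k)) (x : Fin 3 → K) (e : Matrix (Fin 3) (Fin 3) K),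
    FiniteDimensional k K ∧ Module.finrank k K = m ∧ IsUnit e.det ∧ aeval x G ≠ 0 ∧
    homogeneousComponent 0 (shift x e F) = 0 ∧ homogeneousComponent 1 (shift x e F) = X 1 ∧
    aeval (![1, 0, Polynomial.X] : Fin 3 → Polynomial K)
      (homogeneousComponent 2 (shift x e F)) ≠ 0

/-- CHG: the change of coordinates keeps degree and irreducibility. -/
def ChgStmt : Prop := ∀ (k : Type) [Field k] (K : IntermediateField k (AlgebraicClosure k))
  (F : MvPolynomial (Fin 3) k) (x : Fin 3 → K) (e : Matrix (Fin 3) (Fin 3) K),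
  Irreducible (map (algebraMap k (AlgebraicClosure k)) F) → IsUnit e.det →
  (shift x e F).totalDegree = F.totalDegree ∧ Irreducible (shift x e F) ∧
  ∀ P : MvPolynomial (Fin 3) k, shift x e F ∣ shift x e P → F ∣ P

/-- MNF: the theorem. -/
def MnfStmt : Prop := ∀ (k : Type) [Field k] [NumberField k] (F : MvPolynomial (Fin 3) k),
  Irreducible (map (algebraMap k (AlgebraicClosure k)) F) → 2 ≤ F.totalDegree →
  F.totalDegree ≤ 4 → ∀ d n : ℕ, 0 < n → DenseDeg F d → DenseDeg F (n * d)

end Pool.Agent.DDQ
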