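import Pool.Agent.Helper55_DDQ.Hit2
import Pool.Agent.Helper55_DDQ.Stmts

/-!
# DDQ, HIT part 3: Hilbert irreducibility over a number field, for degrees of points
-/

set_option autoImplicit false

namespace Pool.Agent.DDQ.H55

open IntermediateField

theorem fix_adjoin {F E : Type} [Field F] [Field E] [Algebra F E] (S : Set E) (σ : E ≃ₐ[F] E)
    (h : ∀ x ∈ S, σ x = x) : ∀ x ∈ adjoin F S, σ x = x := by
  intro x hx
  induction hx using IntermediateField.adjoin_induction with
  | mem x hx => exact h x hx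
  | algebraMap x => exact σ.commutes x
  | add x y _ _ h1 h2 => rw [map_add, h1, h2]
  | inv x _ h1 => rw [map_inv₀, h1]
  | mul x y _ _ h1 h2 => rw [map_mul, h1, h2]

/-- An equivariant specialisation keeps the degree of the field generated by a family. -/
theorem finrank_adjoin_eq {E Ω L' ι : Type} [Field E] [Field Ω] [Algebra E Ω]
    [FiniteDimensional E Ω] [IsGalois E Ω] [Field L'] [CharZero L'] [FiniteDimensional ℚ L']
    [IsGalois ℚ L'] (e : (Ω ≃ₐ[E] Ω) ≃* (L' ≃ₐ[ℚ] L')) (R : Subring Ω) (ψ : R →+* L')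
    (he : ∀ (σ : Ω ≃ₐ[E] Ω) (x y : R), (y : Ω) = σ x → e σ (ψ x) = ψ y)
    (hst : ∀ (σ : Ω ≃ₐ[E] Ω) (x : R), σ x ∈ R) (v : ι → R)
    (hsep : ∀ (σ : Ω ≃ₐ[E] Ω) (i : ι), σ (v i) ≠ (v i : Ω) →
      ∀ y : R, (y : Ω) = σ (v i) → ψ y ≠ ψ (v i)) :
    Module.finrank ℚ (adjoin ℚ (Set.range fun i => ψ (v i))) =
      Module.finrank E (adjoin E (Set.range fun i => (v i : Ω))) := by
  set K1 := adjoin E (Set.range fun i => (v i : Ω)) with hK1
  set K2 := adjoin ℚ (Set.range fun i => ψ (v i)) with hK2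
  have hiff : ∀ σ : Ω ≃ₐ[E] Ω, σ ∈ K1.fixingSubgroup ↔ e σ ∈ K2.fixingSubgroup := by
    intro σ
    rw [IntermediateField.mem_fixingSubgroup_iff, IntermediateField.mem_fixingSubgroup_iff]
    constructor
    · intro h
      refine fix_adjoin _ _ ?_
      rintro _ ⟨i, rfl⟩
      exact he σ (v i) (v i) (h _ (subset_adjoin E _ ⟨i, rfl⟩)).symm
    · intro h
      refine fix_adjoin _ _ ?_
      rintro _ ⟨i, rfl⟩
      by_contra hne
      refine hsep σ i hne ⟨σ (v i), hst σ (v i)⟩ rfl ?_
      rw [← he σ (v i) ⟨σ (v i), hst σ (v i)⟩ rfl]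
      exact h _ (subset_adjoin ℚ _ ⟨i, rfl⟩)
  have hcard : Nat.card K1.fixingSubgroup = Nat.card K2.fixingSubgroup :=
    Nat.card_congr (e.toEquiv.subtypeEquiv hiff)
  rw [IsGalois.card_fixingSubgroup_eq_finrank, IsGalois.card_fixingSubgroup_eq_finrank] at hcard
  have h1 := Module.finrank_mul_finrank E K1 Ω
  have h2 := Module.finrank_mul_finrank ℚ K2 L'
  have h3 : Module.finrank E Ω = Module.finrank ℚ L' := by
    rw [← IsGalois.card_aut_eq_finrank, ← IsGalois.card_aut_eq_finrank]
    exact Nat.card_congr e.toEquiv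
  have hpos : 0 < Module.finrank K1 Ω := Module.finrank_pos
  rw [← hcard, ← h3, ← h1] at h2
  exact Nat.eq_of_mul_eq_mul_right hpos h2

/-- A number field is generated by one element: induction principle for its image. -/
theorem map_mem_of_primitive {k L : Type} [Field k] [CharZero k] [Field L] (g : k →+* L) (κ : k)
    (hκ : adjoin ℚ {κ} = ⊤) (M : Subfield L) (h : g κ ∈ M) (c : k) : g c ∈ M := by
  have hc : c ∈ adjoin ℚ {κ} := by rw [hκ]; exact mem_top
  induction hc using IntermediateField.adjoin_induction with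
  | mem x hx => rw [Set.mem_singleton_iff.1 hx]; exact h
  | algebraMap q =>
    rw [eq_ratCast, map_ratCast]
    exact SubfieldClass.ratCast_mem M q
  | add x y _ _ h1 h2 => rw [map_add]; exact M.add_mem h1 h2
  | inv x _ h1 => rw [map_inv₀]; exact M.inv_mem h1
  | mul x y _ _ h1 h2 => rw [map_mul]; exact M.mul_mem h1 h2

theorem adjoin_mem_subfield {F L : Type} [Field F] [Field L] [Algebra F L] (S : Set L)
    (M : Subfield L) (h1 : ∀ c : F, algebraMap F L c ∈ M) (h2 : ∀ x ∈ S, x ∈ M) :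
    ∀ x ∈ adjoin F S, x ∈ M := by
  intro x hx
  induction hx using IntermediateField.adjoin_induction with
  | mem x hx => exact h2 x hx
  | algebraMap c => exact h1 c
  | add x y _ _ h1 h2 => exact M.add_mem h1 h2
  | inv x _ h1 => exact M.inv_mem h1
  | mul x y _ _ h1 h2 => exact M.mul_mem h1 h2

/-- Degrees over intermediate fields with the same elements. -/
theorem finrank_congr {F₁ F₂ L : Type} [Field F₁] [Field F₂] [Field L] [Algebra F₁ L]
    [Algebra F₂ L] (K₁ : IntermediateField F₁ L) (K₂ : IntermediateField F₂ L)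
    (h : ∀ x, x ∈ K₁ ↔ x ∈ K₂) :
    Module.finrank K₁ L = Module.finrank K₂ L ∧
      (FiniteDimensional K₁ L → FiniteDimensional K₂ L) := by
  let i : K₁ ≃+* K₂ :=
    { toFun := fun x => ⟨x, (h x).1 x.2⟩
      invFun := fun x => ⟨x, (h x).2 x.2⟩
      left_inv := fun x => rfl
      right_inv := fun x => rfl
      map_mul' := fun x y => rfl
      map_add' := fun x y => rfl }
  refine ⟨Algebra.finrank_eq_of_equiv_equiv i (RingEquiv.refl L) (RingHom.ext fun x => rfl),
    fun hf => ?_⟩
  exact Module.Finite.of_equiv_equiv i (RingEquiv.refl L) (RingHom.ext fun x => rfl)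

end Pool.Agent.DDQ.H55
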