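import Pool.Agent.Helper55_DDQ.Stmts

/-!
# DDQ, MNF: the theorem on quartic surfaces, from the modules
-/

set_option autoImplicit false

namespace Pool.Agent.DDQ.H55

open MvPolynomial IntermediateField

section

variable {k K L : Type} [Field k] [Field K] [Field L] [Algebra k K] [Algebra K L] [Algebra k L]
  [IsScalarTower k K L]

/-- The coordinates of the point. -/
noncomputable def pt (x : Fin 3 → K) (e : Matrix (Fin 3) (Fin 3) K) (A : Fin 3 → L) :
    Fin 3 → L := fun i => algebraMap K L (x i) + ∑ j, algebraMap K L (e i j) * A j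

theorem aeval_shift (x : Fin 3 → K) (e : Matrix (Fin 3) (Fin 3) K) (A : Fin 3 → L)
    (P : MvPolynomial (Fin 3) k) : aeval A (shift x e P) = aeval (pt x e A) P := by
  have h : ((aeval A : MvPolynomial (Fin 3) K →ₐ[K] L).restrictScalars k).comp
      (aeval (fun i => C (x i) + ∑ j, C (e i j) * X j) : MvPolynomial (Fin 3) k →ₐ[k] _) =
      aeval (pt x e A) := by
    refine MvPolynomial.algHom_ext fun i => ?_
    simp [pt]
  exact DFunLike.congr_fun h P

theorem adjoin_pt (x : Fin 3 → K) (e : Matrix (Fin 3) (Fin 3) K) (A : Fin 3 → L)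
    (he : IsUnit e.det) (j : Fin 3) : A j ∈ adjoin K (Set.range (pt x e A)) := by
  have h1 : A j = ∑ i, algebraMap K L (e⁻¹ j i) * (pt x e A i - algebraMap K L (x i)) := by
    have h2 : ∀ i, pt x e A i - algebraMap K L (x i) = ∑ l, algebraMap K L (e i l) * A l := by
      intro i
      unfold pt
      ring
    simp only [h2]
    have h3 : ∀ i, algebraMap K L (e⁻¹ j i) * ∑ l, algebraMap K L (e i l) * A l =
        ∑ l, algebraMap K L (e⁻¹ j i * e i l) * A l := by
      intro i
      rw [Finset.mul_sum]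
      refine Finset.sum_congr rfl fun l _ => ?_
      rw [map_mul, mul_assoc]
    simp only [h3]
    rw [Finset.sum_comm]
    have h4 : ∀ l, ∑ i, algebraMap K L (e⁻¹ j i * e i l) * A l =
        algebraMap K L ((e⁻¹ * e) j l) * A l := by
      intro l
      rw [← Finset.sum_mul, ← map_sum, Matrix.mul_apply]
    simp only [h4]
    rw [Matrix.nonsing_inv_mul e he]
    simp [Matrix.one_apply]
  rw [h1]
  refine sum_mem fun i _ => mul_mem (IntermediateField.algebraMap_mem _ _)
    (sub_mem ?_ (IntermediateField.algebraMap_mem _ _))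
  exact subset_adjoin K _ ⟨i, rfl⟩

end

section

variable {K : Type} [Field K]

theorem hom_aeval (g : Fin 3 → MvPolynomial (Fin 2) K) (hg : ∀ i, (g i).IsHomogeneous 1)
    (m : ℕ) (P : MvPolynomial (Fin 3) K) :
    homogeneousComponent m (aeval g P) = aeval g (homogeneousComponent m P) := by
  have h1 : ∀ i, (aeval g (homogeneousComponent i P)).IsHomogeneous i := by
    intro i
    have := (homogeneousComponent_isHomogeneous i P).aeval g hg
    rwa [one_mul] at this
  conv_lhs => rw [← sum_homogeneousComponent P, map_sum, map_sum]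
  have h2 : ∀ i ∈ Finset.range (P.totalDegree + 1),
      homogeneousComponent m (aeval g (homogeneousComponent i P)) =
        if i = m then aeval g (homogeneousComponent m P) else 0 := by
    intro i _
    rw [homogeneousComponent_of_mem (h1 i)]
    by_cases h : i = m
    · rw [if_pos h, if_pos h.symm, h]
    · rw [if_neg h, if_neg fun h' => h h'.symm]
  rw [Finset.sum_congr rfl h2, Finset.sum_ite_eq' (Finset.range (P.totalDegree + 1)) m]
  by_cases hm : m ∈ Finset.range (P.totalDegree + 1)
  · rw [if_pos hm]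
  · rw [if_neg hm, homogeneousComponent_eq_zero]
    · rw [map_zero]
    · rw [Finset.mem_range] at hm
      omega

theorem totalDegree_aeval (g : Fin 3 → MvPolynomial (Fin 2) K) (hg : ∀ i, (g i).IsHomogeneous 1)
    (P : MvPolynomial (Fin 3) K) : (aeval g P).totalDegree ≤ P.totalDegree := by
  conv_lhs => rw [← sum_homogeneousComponent P, map_sum]
  refine totalDegree_finsetSum_le fun i hi => ?_
  have := (homogeneousComponent_isHomogeneous i P).aeval g hg
  rw [one_mul] at this
  refine this.totalDegree_le.trans ?_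
  rw [Finset.mem_range] at hi
  omega

end

/-- The function field of an irreducible surface. -/
theorem exists_field {K : Type} [Field K] (F : MvPolynomial (Fin 3) K) (hF : Irreducible F) :
    ∃ (L : Type) (_ : Field L) (_ : Algebra K L) (A : Fin 3 → L),
      (∀ P : MvPolynomial (Fin 3) K, aeval A P = 0 ↔ F ∣ P) ∧ adjoin K (Set.range A) = ⊤ := by
  have hI : (Ideal.span {F}).IsPrime :=
    (Ideal.span_singleton_prime hF.ne_zero).2 hF.prime
  let B := MvPolynomial (Fin 3) K ⧸ Ideal.span {F}
  let L := FractionRing B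
  let A : Fin 3 → L := fun i => algebraMap B L (Ideal.Quotient.mk _ (X i))
  have hA : ∀ P : MvPolynomial (Fin 3) K, aeval A P = algebraMap B L (Ideal.Quotient.mk _ P) := by
    intro P
    have h : (aeval A : MvPolynomial (Fin 3) K →ₐ[K] L) =
        (IsScalarTower.toAlgHom K B L).comp (Ideal.Quotient.mkₐ K _) := by
      refine MvPolynomial.algHom_ext fun i => ?_
      rw [aeval_X]
      rfl
    exact DFunLike.congr_fun h P
  refine ⟨L, inferInstance, inferInstance, A, fun P => ?_, ?_⟩
  · rw [hA, map_eq_zero_iff _ (IsFractionRing.injective B L), Ideal.Quotient.eq_zero_iff_mem,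
      Ideal.mem_span_singleton]
  · rw [eq_top_iff]
    intro z _
    obtain ⟨a, b, hb, rfl⟩ := IsFractionRing.div_surjective (A := B) (K := L) z
    have hmem : ∀ a : B, algebraMap B L a ∈ adjoin K (Set.range A) := by
      intro a
      obtain ⟨P, rfl⟩ := Ideal.Quotient.mk_surjective a
      rw [← hA]
      refine algebra_adjoin_le_adjoin K _ ?_
      rw [Algebra.adjoin_range_eq_range_aeval]
      exact ⟨P, rfl⟩
    exact div_mem (hmem a) (hmem b)

/-- The case `D ≤ n + 1`: rational maps of degree `n` to the plane. -/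
theorem mnf_big (trl : TrlStmt) (asm : AsmStmt) (chg : ChgStmt) (k : Type) [Field k]
    [NumberField k] (F G : MvPolynomial (Fin 3) k)
    (hF : Irreducible (map (algebraMap k (AlgebraicClosure k)) F)) (h2 : 2 ≤ F.totalDegree)
    (h4 : F.totalDegree ≤ 4) (d n : ℕ) (hn : 0 < n) (hnD : F.totalDegree ≤ n + 1)
    (hG : ¬ F ∣ G) (K : IntermediateField k (AlgebraicClosure k)) (x : Fin 3 → K)
    (e : Matrix (Fin 3) (Fin 3) K) (hfin : FiniteDimensional k K) (hKd : Module.finrank k K = d)
    (hdet : IsUnit e.det) (h0 : homogeneousComponent 0 (shift x e F) = 0)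
    (h1 : homogeneousComponent 1 (shift x e F) = X 1)
    (hq : aeval (![1, 0, Polynomial.X] : Fin 3 → Polynomial K)
      (homogeneousComponent 2 (shift x e F)) ≠ 0) :
    ∃ y : Fin 3 → AlgebraicClosure k, aeval y F = 0 ∧ aeval y G ≠ 0 ∧
      Module.finrank k (adjoin k (Set.range y)) = n * d := by
  obtain ⟨hdeg, hirr, hdiv⟩ := chg k K F x e hF hdet
  have hch : CharZero K := charZero_of_injective_algebraMap (algebraMap k K).injective
  obtain ⟨L, i1, i2, A, hker, hgenA⟩ := exists_field _ hirr
  let algkL : Algebra k L := ((algebraMap K L).comp (algebraMap k K)).toAlgebra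
  have tower : IsScalarTower k K L := IsScalarTower.of_algebraMap_eq fun _ => rfl
  obtain ⟨T, hT, hTn⟩ := asm K L F.totalDegree (shift x e F) A h2 h4 hdeg h0 h1 hq hker hgenA n
    hnD hn
  have hw : adjoin K (Set.range (pt x e A)) = ⊤ := by
    rw [eq_top_iff, ← hgenA, adjoin_le_iff]
    rintro _ ⟨j, rfl⟩
    exact adjoin_pt x e A hdet j
  have hrel : ∀ P : MvPolynomial (Fin 3) k, aeval (pt x e A) P = 0 → F ∣ P := by
    intro P hP
    rw [← aeval_shift, hker] at hP
    exact hdiv P hP
  obtain ⟨y, hy1, hy2, hy3⟩ := trl k K L 3 2 T (pt x e A) n (by norm_num) hn hT hw hTn G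
    (fun h => hG (hrel G h))
  refine ⟨y, hy1 F ?_, hy2, by rw [hy3, hKd]⟩
  rw [← aeval_shift, hker]

section

variable {k K : Type} [Field k] [Field K] [Algebra k K]

/-- The restriction to the tangent plane. -/
noncomputable def gg (K : Type) [Field K] : Fin 3 → MvPolynomial (Fin 2) K := ![X 0, 0, X 1]

theorem gg_hom (i : Fin 3) : (gg K i).IsHomogeneous 1 := by
  fin_cases i
  · exact isHomogeneous_X K 0
  · exact isHomogeneous_zero _ _ _
  · exact isHomogeneous_X K 1

theorem gg_aeval {L : Type} [CommRing L] [Algebra K L] (a b : L) (Q : MvPolynomial (Fin 3) K) :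
    aeval ![a, 0, b] Q = aeval ![a, b] (aeval (gg K) Q) := by
  have h6 : (aeval ![a, 0, b] : MvPolynomial (Fin 3) K →ₐ[K] L) =
      (aeval ![a, b]).comp (aeval (gg K)) := by
    refine MvPolynomial.algHom_ext fun i => ?_
    fin_cases i <;> simp [gg]
  exact DFunLike.congr_fun h6 _

theorem gg_const (x : Fin 3 → K) (e : Matrix (Fin 3) (Fin 3) K) (P : MvPolynomial (Fin 3) k) :
    constantCoeff (aeval (gg K) (shift x e P)) = aeval x P := by
  have h : ∀ Q : MvPolynomial (Fin 2) K, constantCoeff Q = aeval (![0, 0] : Fin 2 → K) Q := by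
    intro Q
    have h5 : (constantCoeff : MvPolynomial (Fin 2) K →+* K) =
        (aeval (![0, 0] : Fin 2 → K) : MvPolynomial (Fin 2) K →ₐ[K] K).toRingHom := by
      refine MvPolynomial.ringHom_ext (fun c => by simp) (fun i => ?_)
      fin_cases i <;> simp
    exact RingHom.congr_fun h5 Q
  rw [h, ← gg_aeval (0 : K) 0, aeval_shift]
  congr 1
  congr 1
  funext i
  simp only [pt, Algebra.algebraMap_self, RingHom.id_apply]
  rw [Fin.sum_univ_three]
  simp

end

/-- The case of degree four and `n = 2`: the tangent plane section. -/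
theorem mnf_two (trl : TrlStmt) (tan : TanStmt) (chg : ChgStmt) (k : Type) [Field k]
    [NumberField k] (F G : MvPolynomial (Fin 3) k)
    (hF : Irreducible (map (algebraMap k (AlgebraicClosure k)) F))
    (h4 : F.totalDegree ≤ 4) (d : ℕ) (K : IntermediateField k (AlgebraicClosure k))
    (x : Fin 3 → K)
    (e : Matrix (Fin 3) (Fin 3) K) (hfin : FiniteDimensional k K) (hKd : Module.finrank k K = d)
    (hdet : IsUnit e.det) (hG : aeval x G ≠ 0) (h0 : homogeneousComponent 0 (shift x e F) = 0)
    (h1 : homogeneousComponent 1 (shift x e F) = X 1)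
    (hq : aeval (![1, 0, Polynomial.X] : Fin 3 → Polynomial K)
      (homogeneousComponent 2 (shift x e F)) ≠ 0) :
    ∃ y : Fin 3 → AlgebraicClosure k, aeval y F = 0 ∧ aeval y G ≠ 0 ∧
      Module.finrank k (adjoin k (Set.range y)) = 2 * d := by
  obtain ⟨hdeg, -, -⟩ := chg k K F x e hF hdet
  have hΦ0 : homogeneousComponent 0 (aeval (gg K) (shift x e F)) = 0 := by
    rw [hom_aeval (gg K) gg_hom, h0, map_zero]
  have hΦ1 : homogeneousComponent 1 (aeval (gg K) (shift x e F)) = 0 := by
    rw [hom_aeval (gg K) gg_hom, h1, aeval_X]; rfl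
  have hΦ2 : homogeneousComponent 2 (aeval (gg K) (shift x e F)) ≠ 0 := by
    rw [hom_aeval (gg K) gg_hom]
    intro h
    apply hq
    rw [gg_aeval, h, map_zero]
  obtain ⟨L, i1, i2, A, t, hA, hgen, hconst, ht, htn⟩ := tan K _ hΦ0 hΦ1 hΦ2
    ((totalDegree_aeval (gg K) gg_hom _).trans (hdeg.le.trans h4))
  have hA2 : A = ![A 0, A 1] := by
    funext i
    fin_cases i <;> rfl
  let algkL : Algebra k L := ((algebraMap K L).comp (algebraMap k K)).toAlgebra
  have tower : IsScalarTower k K L := IsScalarTower.of_algebraMap_eq fun _ => rfl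
  have hA' : ∀ Q : MvPolynomial (Fin 3) K, aeval ![A 0, 0, A 1] Q = aeval A (aeval (gg K) Q) := by
    intro Q
    rw [gg_aeval, ← hA2]
  have hw : adjoin K (Set.range (pt x e ![A 0, 0, A 1])) = ⊤ := by
    rw [eq_top_iff, ← hgen, adjoin_le_iff]
    rintro _ ⟨j, rfl⟩
    have h5 := adjoin_pt x e ![A 0, 0, A 1] hdet
    fin_cases j
    · exact h5 0
    · exact h5 2
  have hrel : ∀ P : MvPolynomial (Fin 3) k, aeval (pt x e ![A 0, 0, A 1]) P = 0 →
      aeval x P = 0 := by
    intro P hP
    rw [← aeval_shift, hA'] at hP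
    rw [← gg_const x e]
    exact hconst _ hP
  have hT : AlgebraicIndependent K (fun _ : Fin 1 => t) :=
    (algebraicIndependent_unique_type_iff).2 ht
  have hTn : Module.finrank (adjoin K (Set.range fun _ : Fin 1 => t)) L = 2 := by
    rw [Set.range_const]; exact htn
  obtain ⟨y, hy1, hy2, hy3⟩ := trl k K L 3 1 (fun _ => t) (pt x e ![A 0, 0, A 1]) 2 (by norm_num)
    (by norm_num) hT hw hTn G (fun h => hG (hrel G h))
  refine ⟨y, hy1 F ?_, hy2, by rw [hy3, hKd]⟩
  rw [← aeval_shift, hA']
  exact hA

theorem mnf (trl : TrlStmt) (asm : AsmStmt) (tan : TanStmt) (geo : GeoStmt) (chg : ChgStmt) :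
    MnfStmt := by
  intro k _ _ F hF h2 h4 d n hn hd G hG
  by_cases hn1 : n = 1
  · rw [hn1, one_mul]; exact hd G hG
  have hch : CharZero k := inferInstance
  obtain ⟨K, x, e, hfin, hKd, hdet, hxG, h0, h1, hq⟩ := geo k F G d hF h2 hd hG
  by_cases hbig : F.totalDegree ≤ n + 1
  · exact mnf_big trl asm chg k F G hF h2 h4 d n hn hbig hG K x e hfin hKd hdet h0 h1 hq
  · have hn2 : n = 2 := by omega
    rw [hn2]
    exact mnf_two trl tan chg k F G hF h4 d K x e hfin hKd hdet hxG h0 h1 hq

end Pool.Agent.DDQ.H55
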