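import Pool.Agent.Helper55_DDQ.Hit
import Pool.Agent.Helper55_DDQ.Mnf
import Pool.Agent.Helper67_DDQ.Trl
import Pool.Agent.Helper71_DDQ.Asm
import Pool.Agent.Helper29_DDQ.Prj
import Pool.Agent.Helper21_DDQ.Swp
import Pool.Agent.Helper21_DDQ.Cvf
import Pool.Agent.Helper65_DDQ.Cvt
import Pool.Agent.Helper47_DDQ.Tan
import Pool.Agent.Helper47_DDQ.Chg
import Pool.Agent.Helper60_DDQ.Geo

/-!
# DDQ: points of fixed degree on surfaces of degree at most four
-/

set_option autoImplicit false

namespace Pool.Agent.DDQ.H55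

theorem trl' : TrlStmt := H67.trl hit

theorem cvf' : CvfStmt := H21.cvf H21.swp

theorem cvt' : CvtStmt := H65.cvt H21.swp

theorem asm' : AsmStmt := H71.asm H29.prj cvf' cvt'

theorem geo' : GeoStmt := H60.geo H60.flt

theorem quartic : MnfStmt := mnf trl' asm' H47T.tan geo' H47.chg


end Pool.Agent.DDQ.H55
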