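import Pool.Agent.Helper55_DDQ.Quartic
import Pool.Agent.Helper12_DDS.SchBir

/-!
# DDQ: one point suffices; the theorem for schemes
-/

set_option autoImplicit false

namespace Pool.Agent.DDQ.H55

open MvPolynomial IntermediateField H60

/-- Adapted coordinates at a smooth point which is not flat. -/
theorem geo_pt (k : Type) [Field k] [CharZero k] (F : MvPolynomial (Fin 3) k) (m : ℕ)
    (y : Fin 3 → AlgebraicClosure k) (hy0 : aeval y F = 0) (i j l n : Fin 3)
    (hy1 : aeval y (hess F i j l n) ≠ 0)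
    (hy2 : Module.finrank k (adjoin k (Set.range y)) = m) :
    ∃ (K : IntermediateField k (AlgebraicClosure k)) (x : Fin 3 → K) (e : Matrix (Fin 3) (Fin 3) K),
    FiniteDimensional k K ∧ Module.finrank k K = m ∧ IsUnit e.det ∧
    homogeneousComponent 0 (shift x e F) = 0 ∧ homogeneousComponent 1 (shift x e F) = X 1 ∧
    aeval (![1, 0, Polynomial.X] : Fin 3 → Polynomial K)
      (homogeneousComponent 2 (shift x e F)) ≠ 0 := by
  let K : IntermediateField k (AlgebraicClosure k) := adjoin k (Set.range y)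
  let x : Fin 3 → K := fun a => ⟨y a, subset_adjoin k _ ⟨a, rfl⟩⟩
  have hx : ∀ P : MvPolynomial (Fin 3) k,
      aeval y P = algebraMap K (AlgebraicClosure k) (aeval x P) :=
    fun P => aeval_algebraMap_apply (AlgebraicClosure k) x P
  have hx' : ∀ P : MvPolynomial (Fin 3) k, aeval y P = 0 ↔ aeval x P = 0 := by
    intro P
    rw [hx, map_eq_zero]
  have hF : aeval x F = 0 := (hx' F).1 hy0
  have hhx : aeval x (hess F i j l n) ≠ 0 := fun h => hy1 ((hx' _).2 h)
  obtain ⟨v, hv⟩ : ∃ v : Fin 3 → K, v = fun a => aeval x (pderiv j F) *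
    (if a = i then 1 else 0) - aeval x (pderiv i F) * (if a = j then 1 else 0) := ⟨_, rfl⟩
  obtain ⟨w, hw⟩ : ∃ w : Fin 3 → K, w = fun a => aeval x (pderiv n F) *
    (if a = l then 1 else 0) - aeval x (pderiv l F) * (if a = n then 1 else 0) := ⟨_, rfl⟩
  rw [hess_val F x i j l n hv hw] at hhx
  have hg : ∃ r, aeval x (pderiv r F) ≠ 0 := by
    by_contra hcon
    push Not at hcon
    apply hhx
    rw [hv]
    simp only [hcon]
    simp
  obtain ⟨e, he, he0, he1, he2⟩ := adapted (fun r => aeval x (pderiv r F)) hg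
  have hfin : FiniteDimensional k K := by
    apply finiteDimensional_adjoin
    intro a _
    exact Algebra.IsIntegral.isIntegral a
  -- the second derivatives of the shifted polynomial
  have hB : ∀ p q : Fin 3, eval 0 (pderiv p (pderiv q (shift x e F))) =
      ∑ a, ∑ b, e a p * e b q * aeval x (pderiv a (pderiv b F)) := by
    intro p q
    rw [pderiv_shift, map_sum, map_sum, Finset.sum_comm]
    refine Finset.sum_congr rfl fun b _ => ?_
    rw [pderiv_C_mul, map_mul, eval_C, pderiv_shift, map_sum, Finset.mul_sum]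
    refine Finset.sum_congr rfl fun a _ => ?_
    rw [map_mul, eval_C, eval_shift]
    ring
  have hBs : ∀ p q : Fin 3, eval 0 (pderiv p (pderiv q (shift x e F))) =
      eval 0 (pderiv q (pderiv p (shift x e F))) := fun p q => by rw [pderiv_comm']
  refine ⟨K, x, e, hfin, hy2, he, ?_, ?_, ?_⟩
  · rw [comp_zero, eval_shift, hF, C_0]
  · rw [comp_one]
    have h1 : ∀ q, eval 0 (pderiv q (shift x e F)) = ∑ a, e a q * aeval x (pderiv a F) := by
      intro q
      rw [pderiv_shift, map_sum]
      refine Finset.sum_congr rfl fun a _ => ?_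
      rw [map_mul, eval_C, eval_shift]
    rw [Fin.sum_univ_three, h1 0, h1 1, h1 2, he0, he1, he2]
    simp
  · intro hzero
    have h2 := congrArg (aeval (![1, 0, Polynomial.X] : Fin 3 → Polynomial K))
      (comp_two (shift x e F))
    rw [map_nsmul, hzero, smul_zero, map_sum] at h2
    simp only [Fin.sum_univ_three, map_add, map_mul, aeval_X, algHom_C, Matrix.cons_val_zero,
      Matrix.cons_val_one, Matrix.cons_val, one_mul, zero_mul, add_zero] at h2
    have h3 : Polynomial.C (eval 0 (pderiv 0 (pderiv 0 (shift x e F)))) +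
        Polynomial.X * (Polynomial.C (eval 0 (pderiv 2 (pderiv 0 (shift x e F)))) +
          Polynomial.C (eval 0 (pderiv 0 (pderiv 2 (shift x e F))))) +
        Polynomial.X ^ 2 * Polynomial.C (eval 0 (pderiv 2 (pderiv 2 (shift x e F)))) = 0 := by
      rw [h2]
      simp only [Polynomial.algebraMap_eq]
      ring
    obtain ⟨c0, c1, c2⟩ := quad_zero h3
    have hK : CharZero K := charZero_of_injective_algebraMap (algebraMap k K).injective
    have c3 : eval 0 (pderiv 0 (pderiv 2 (shift x e F))) = 0 := by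
      rw [hBs 2 0] at c1
      have h4 : (2 : K) * eval 0 (pderiv 0 (pderiv 2 (shift x e F))) = 0 := by
        rw [two_mul]; exact c1
      exact (mul_eq_zero.1 h4).resolve_left two_ne_zero
    have c4 : eval 0 (pderiv 2 (pderiv 0 (shift x e F))) = 0 := by rw [hBs 2 0]; exact c3
    rw [hB] at c0 c2 c3 c4
    obtain ⟨s, t, hst⟩ := tangent_span he he0 he1 he2
      (tangent (g := fun r => aeval x (pderiv r F)) i j hv)
    obtain ⟨s', t', hst'⟩ := tangent_span he he0 he1 he2
      (tangent (g := fun r => aeval x (pderiv r F)) l n hw)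
    apply hhx
    simp only [Fin.sum_univ_three, hst, hst'] at c0 c2 c3 c4 ⊢
    linear_combination s * s' * c0 + s * t' * c3 + t * s' * c4 + t * t' * c2


/-- For a surface of degree `D`, `2 ≤ D ≤ 4`, one smooth point of degree `d` which is not flat gives
dense points of degree `n d` for all `n ≥ D - 1`. -/
theorem one_point (k : Type) [Field k] [NumberField k] (F : MvPolynomial (Fin 3) k)
    (hF : Irreducible (map (algebraMap k (AlgebraicClosure k)) F)) (h2 : 2 ≤ F.totalDegree)
    (h4 : F.totalDegree ≤ 4) (d n : ℕ) (hn : 0 < n) (hnD : F.totalDegree ≤ n + 1)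
    (y : Fin 3 → AlgebraicClosure k) (hy0 : aeval y F = 0)
    (hy1 : ∃ i j l m, aeval y (hess F i j l m) ≠ 0)
    (hy2 : Module.finrank k (adjoin k (Set.range y)) = d) : DenseDeg F (n * d) := by
  intro G hG
  obtain ⟨i, j, l, m, hy1⟩ := hy1
  obtain ⟨K, x, e, hfin, hKd, hdet, h0, h1, hq⟩ := geo_pt k F d y hy0 i j l m hy1 hy2
  exact mnf_big trl' asm' H47.chg k F G hF h2 h4 d n hn hnD hG K x e hfin hKd hdet h0 h1 hq

/-! ## Comparison with the density of `DDS` -/

theorem zeros_span {k : Type} [Field k] (F : MvPolynomial (Fin 3) k)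
    (x : Fin 3 → AlgebraicClosure k) :
    x ∈ DDS.Zeros k (Ideal.span {F} : Set (MvPolynomial (Fin 3) k)) ↔ aeval x F = 0 := by
  constructor
  · intro h
    exact h F (Ideal.mem_span_singleton_self F)
  · intro h P hP
    obtain ⟨Q, rfl⟩ := Ideal.mem_span_singleton.1 hP
    rw [map_mul, h, zero_mul]

theorem isPrime_span {k : Type} [Field k] (F : MvPolynomial (Fin 3) k)
    (hF : Irreducible (map (algebraMap k (AlgebraicClosure k)) F)) :
    (Ideal.span {F}).IsPrime := by
  have h := H47.irr_of_map _ hF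
  exact (Ideal.span_singleton_prime h.ne_zero).2 h.prime

theorem dense_iff {k : Type} [Field k] (F : MvPolynomial (Fin 3) k)
    (hF : Irreducible (map (algebraMap k (AlgebraicClosure k)) F)) (m : ℕ) :
    DDS.DenseDeg k (DDS.Zeros k (Ideal.span {F} : Set (MvPolynomial (Fin 3) k))) m ↔
      DenseDeg F m := by
  constructor
  · intro h G hG
    have h1 : ∃ x ∈ DDS.Zeros k (Ideal.span {F} : Set (MvPolynomial (Fin 3) k)),
        aeval x G ≠ 0 := by
      by_contra hcon
      push Not at hcon
      exact hG (Ideal.mem_span_singleton.1 (DDS.mem_of_vanish _ (isPrime_span F hF) hcon))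
    obtain ⟨x, hx, hx1, hx2⟩ := h G h1
    exact ⟨x, (zeros_span F x).1 hx, hx2, hx1⟩
  · rintro h P ⟨x, hx, hxP⟩
    have h1 : ¬ F ∣ P := by
      rintro ⟨Q, rfl⟩
      exact hxP (by rw [map_mul, (zeros_span F x).1 hx, zero_mul])
    obtain ⟨y, hy1, hy2, hy3⟩ := h P h1
    exact ⟨y, (zeros_span F y).2 hy1, hy3, hy2⟩

open AlgebraicGeometry CategoryTheory in
/-- The theorem for schemes. -/
theorem scheme_main (k : Type) [Field k] [NumberField k] (X : Scheme.{0})
    (f : X ⟶ Spec (CommRingCat.of k)) [IrreducibleSpace X] [LocallyOfFiniteType f]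
    (F : MvPolynomial (Fin 3) k) (h2 : 2 ≤ F.totalDegree) (h4 : F.totalDegree ≤ 4)
    (hF : Irreducible (map (algebraMap k (AlgebraicClosure k)) F))
    (hbir : DDS.Birational f (Spec.map (CommRingCat.ofHom (algebraMap k
      (MvPolynomial (Fin 3) k ⧸ Ideal.span {F}))))) (d n : ℕ) (hn : 0 < n) :
    (DDS.DenseClosed f d → DDS.DenseClosed f (n * d)) ∧
    (F.totalDegree ≤ n + 1 → (∃ y : Fin 3 → AlgebraicClosure k, aeval y F = 0 ∧
      (∃ i j l m, aeval y (hess F i j l m) ≠ 0) ∧
      Module.finrank k (adjoin k (Set.range y)) = d) → DDS.DenseClosed f (n * d)) := by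
  have hkey : ∀ m, DDS.DenseClosed f m ↔ DenseDeg F m := fun m =>
    (DDS.denseClosed_birational f _ (isPrime_span F hF) hbir m).trans (dense_iff F hF m)
  refine ⟨fun h => (hkey _).2 (quartic k F hF h2 h4 d n hn ((hkey _).1 h)), ?_⟩
  rintro hnD ⟨y, hy0, hy1, hy2⟩
  exact (hkey _).2 (one_point k F hF h2 h4 d n hn hnD y hy0 hy1 hy2)

end Pool.Agent.DDQ.H55
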